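import Pool.Agent.H87.GR.Main

/-!
# MP_294eca_gt, Q1: `dim_G` of graphoids of arbitrary families of rational functions

For every family `F` of real rational functions in two variables and every abelian group `G` that is
not 2-divisible, `dim_G (Graphoid F) ≤ 1` fails: for *every* Eilenberg–MacLane space `K = K(G,1)`
there are a closed subset `A` of the graphoid and a continuous map `A → K` that does not extend
continuously to the graphoid.  Together with the known upper bound `dim_G ≤ 2` this is Q1.
-/

namespace Pool.Agent.Results.MP_294eca_gt.CohomologicalDimension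

open Pool.Agent.H87.GR

universe v w x

/-- `K` is an Eilenberg–MacLane space `K(G,1)` for the discrete abelian group `G`: there are a
contractible space `E`, a covering space action of `G` on `E` (by homeomorphisms, every point of `E`
has an open neighbourhood `U` with `(g + U) ∩ U = ∅` for `g ≠ 0`) and an open quotient map
`E → K` whose fibres are exactly the orbits.  (This is `Pool.Agent.H87.GR.FIN.IsEM1`.) -/
abbrev IsKG1 (G : Type v) [AddCommGroup G] (K : Type x) [TopologicalSpace K] : Prop :=
  FIN.IsEM1.{v, w, x} G K

/-- The extension property defining `dim_G X ≤ 1`, for a given space `K = K(G,1)`. -/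
def ExtProp (X : Type) [TopologicalSpace X] (K : Type x) [TopologicalSpace K] : Prop :=
  ∀ A : Set X, IsClosed A → ∀ f : C(A, K), ∃ F : C(X, K), ∀ a : A, F a = f a

/-- Spaces `K(G,1)` in this sense exist for every abelian group `G`. -/
theorem exists_isKG1 (G : Type v) [AddCommGroup G] :
    ∃ (K : Type v) (_ : TopologicalSpace K), IsKG1.{v, v, v} G K := Model.exists_model G

/-- For every family `F` of rational functions, every abelian group `G` that is not 2-divisible and
every space `K = K(G,1)`, the graphoid of `F` does not have the extension property `dim_G ≤ 1`. -/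
theorem result (F : Set RF) (G : Type v) [AddCommGroup G]
    (hG : ¬ ∀ g : G, ∃ h : G, g = 2 • h)
    (K : Type x) [TopologicalSpace K] (hK : IsKG1.{v, w, x} G K) :
    ¬ ExtProp (Graphoid F) K := by
  intro hext
  have hG' : ∃ g : G, ∀ h : G, h + h ≠ g := by
    push Not at hG
    obtain ⟨g, hg⟩ := hG
    refine ⟨g, fun h e => hg h ?_⟩
    rw [two_nsmul]
    exact e.symm
  obtain ⟨A, hA, f, hf⟩ := mainThm F G hG' K hK
  exact hf (hext A hA f)

end Pool.Agent.Results.MP_294eca_gt.CohomologicalDimension
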